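import Pool.Agent.Q128.PawMain

/-!
# Mutual free chromatic numbers at most two do not give chromatic relatedness

All containments are as induced subgraphs. The definitions (file `Pool.Agent.Q128.PawDefs`):

* `IsFreeColoring H F c`: no colour class of `c` contains `F`.
* `FreeChromaticNumberEq H F k`: `χ(H : -F) = k`, the least number of colours of an `F`-free
  colouring of `H` is `k`.
* `Related n F G`: `F ≍_n G`, some finite graph `H` satisfies `χ(H : -F) = χ(H : -G) = n`.
* `paw`: a triangle with a pendant vertex.
-/

set_option autoImplicit false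

namespace Pool.Agent.Results.MP_3e1815_co.PawHost

open Pool.Agent.Q128.Paw

universe u

/-- For every `k ≥ 3` there is a finite connected graph `G` with `χ(paw : -G) = 1` and
`χ(G : -paw) = 2` such that every graph `H` (finite or not) with a paw-free colouring with at most
`k` colours has a colouring with two colours without `G`, and such that no graph `H` satisfies
`χ(H : -paw) = χ(H : -G) = n` for any `n ≥ 3`. In particular `paw ≍_n G` fails for all `n ≥ 3`. -/
theorem result (k : ℕ) (hk : 3 ≤ k) : ∃ (V : Type) (_ : Finite V) (G : SimpleGraph V),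
    Nontrivial V ∧ G.Connected ∧ FreeChromaticNumberEq paw G 1 ∧ FreeChromaticNumberEq G paw 2 ∧
      (∀ (W : Type u) (H : SimpleGraph W) (m : ℕ), m ≤ k →
        (∃ c : W → Fin m, IsFreeColoring H paw c) → ∃ c : W → Fin 2, IsFreeColoring H G c) ∧
      (∀ (W : Type u) (H : SimpleGraph W) (n : ℕ), 3 ≤ n →
        ¬ (FreeChromaticNumberEq H paw n ∧ FreeChromaticNumberEq H G n)) ∧
      ∀ n : ℕ, 3 ≤ n → ¬ Related n paw G := by
  refine ⟨_, inferInstance, host k, ⟨none, some (Sum.inl 0), by simp⟩, host_connected k,
    paw_free_host k (by omega), host_paw k (by omega), ?_, ?_, ?_⟩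
  · rintro W H m hm ⟨c, hc⟩
    exact at_most_two k m (by omega) hm H c hc
  · intro W H n hn
    exact not_related k n hk hn H
  · rintro n hn ⟨W, _, H, h⟩
    exact not_related k n hk hn H h

end Pool.Agent.Results.MP_3e1815_co.PawHost
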